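import Pool.Agent.Helper54_PSC.Mult

set_option autoImplicit false

/-!
The flip relation.
-/

namespace Pool.Agent.Helper54_PSC

open Pool.Agent.PSC Pool.Agent.Helper40_Pisot MeasureTheory

variable {m : ℕ}

lemma cnt_append (u v : List (Fin (m + 1))) : cnt (u ++ v) = cnt u + cnt v := by
  funext i
  simp [cnt]

lemma cnt_nil : cnt ([] : List (Fin (m + 1))) = 0 := by
  funext i
  simp [cnt]

lemma cnt_single (a : Fin (m + 1)) : cnt [a] = ee a := by
  funext i
  unfold cnt ee
  by_cases h : i = a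
  · subst h
    simp
  · rw [Pi.single_eq_of_ne h]
    have : List.count i [a] = 0 := by
      rw [List.count_eq_zero]
      simpa using h
    rw [this]
    rfl

lemma cnt_take_succ {w : List (Fin (m + 1))} {s : ℕ} {i : Fin (m + 1)} (h : w[s]? = some i) :
    cnt (w.take (s + 1)) = cnt (w.take s) + ee i := by
  have h1 : w.take (s + 1) = w.take s ++ [i] := by
    obtain ⟨hs, hi⟩ := List.getElem?_eq_some_iff.1 h
    rw [List.take_succ_eq_append_getElem hs, hi]
  rw [h1, cnt_append, cnt_single]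

lemma sum_cnt (w : List (Fin (m + 1))) : ∑ i, cnt w i = (w.length : ℤ) := by
  rw [length_eq_sum_count]
  push_cast
  rfl

/-- The face with letter `b` whose image has the vertex `w` at position `s`. -/
noncomputable def PF (σ : Fin (m + 1) → List (Fin (m + 1)))
    (M : Matrix (Fin (m + 1)) (Fin (m + 1)) ℤ) (b : Fin (m + 1)) (s : ℕ) (w : Lat m) : Face m :=
  (M⁻¹.mulVec (w - cnt ((it σ 1 [b]).take s)), b)

variable {σ : Fin (m + 1) → List (Fin (m + 1))} {M : Matrix (Fin (m + 1)) (Fin (m + 1)) ℤ}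
  {r : ℝ} {α l : Fin (m + 1) → ℝ} {a0 : Fin (m + 1)} {x0 : ℤ → Fin (m + 1)}

lemma isUnit_det (h : PisotMat M r) : IsUnit M.det := by
  rcases h.det with h | h
  · rw [h]; exact isUnit_one
  · rw [h]; exact isUnit_one.neg

lemma inv_mulVec (h : PisotMat M r) (v : Lat m) : M⁻¹.mulVec (M.mulVec v) = v := by
  rw [Matrix.mulVec_mulVec, Matrix.nonsing_inv_mul _ (isUnit_det h), Matrix.one_mulVec]

lemma mulVec_inv (h : PisotMat M r) (v : Lat m) : M.mulVec (M⁻¹.mulVec v) = v := by
  rw [Matrix.mulVec_mulVec, Matrix.mul_nonsing_inv _ (isUnit_det h), Matrix.one_mulVec]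

lemma par_iff (h : PisotMat M r) (G F : Face m) :
    Par σ M 1 G F ↔ ∃ p ∈ Idx σ 1 F.2, G = PF σ M p.1 p.2 F.1 := by
  unfold Par
  constructor
  · rintro ⟨t, h1, h2⟩
    refine ⟨⟨G.2, t⟩, ?_, ?_⟩
    · unfold Idx
      rw [Finset.mem_sigma]
      refine ⟨Finset.mem_univ _, ?_⟩
      rw [Finset.mem_filter, Finset.mem_range]
      obtain ⟨hs, _⟩ := List.getElem?_eq_some_iff.1 h1
      exact ⟨hs, h1⟩
    · unfold PF
      rw [pow_one] at h2
      have h3 : F.1 - cnt ((it σ 1 [G.2]).take t) = M.mulVec G.1 := by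
        rw [h2, add_sub_cancel_right]
      simp only
      rw [h3, inv_mulVec h]
  · rintro ⟨p, hp, rfl⟩
    unfold Idx at hp
    rw [Finset.mem_sigma, Finset.mem_filter] at hp
    refine ⟨p.2, hp.2.2, ?_⟩
    unfold PF
    simp only
    rw [pow_one, mulVec_inv h, sub_add_cancel]

lemma PF_inj (h : PisotMat M r) {i : Fin (m + 1)} {w : Lat m} {p q : (_ : Fin (m + 1)) × ℕ}
    (hp : p ∈ Idx σ 1 i) (hq : q ∈ Idx σ 1 i) (he : PF σ M p.1 p.2 w = PF σ M q.1 q.2 w) :
    p = q := by
  obtain ⟨b, s⟩ := p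
  obtain ⟨b', s'⟩ := q
  unfold Idx at hp hq
  rw [Finset.mem_sigma, Finset.mem_filter, Finset.mem_range] at hp hq
  have h0 : b = b' := congrArg Prod.snd he
  have h1 := congrArg Prod.fst he
  subst h0
  unfold PF at h1
  simp only at h1 hp hq
  have h2 := congrArg M.mulVec h1
  rw [mulVec_inv h, mulVec_inv h] at h2
  have h3 : cnt ((it σ 1 [b]).take s) = cnt ((it σ 1 [b]).take s') := by
    have := congrArg (fun z => w - z) h2
    simpa using this
  have h4 : ∑ i, cnt ((it σ 1 [b]).take s) i = ∑ i, cnt ((it σ 1 [b]).take s') i := by rw [h3]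
  rw [sum_cnt, sum_cnt, List.length_take, List.length_take] at h4
  have h5 := hp.2.1
  have h6 := hq.2.1
  have h7 : s = s' := by
    have : min s (it σ 1 [b]).length = min s' (it σ 1 [b]).length := by exact_mod_cast h4
    omega
  rw [h7]

/-- The decomposition of the indicator function of a tile. -/
lemma ind_tile (D : Dat σ M r α l a0 x0) (hinj : Function.Injective (Bn M α 1))
    (hnull : ∀ S : Set (E m), volume S = 0 → volume (Bn M α 1 '' S) = 0)
    (h1 : ∀ F : Face m, ∀ᵐ y ∂(volume : Measure (E m)),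
      (y ∈ tile σ α x0 F ↔ ∃ G, Par σ M 1 G F ∧ y ∈ Bn M α 1 '' tile σ α x0 G))
    (h2 : ∀ G G' F : Face m, Par σ M 1 G F → Par σ M 1 G' F → G ≠ G' →
      (volume : Measure (E m)) (tile σ α x0 G ∩ tile σ α x0 G') = 0) (F : Face m) :
    ∀ᵐ y ∂(volume : Measure (E m)), ind (tile σ α x0 F) y =
      ∑ p ∈ Idx σ 1 F.2, ind (Bn M α 1 '' tile σ α x0 (PF σ M p.1 p.2 F.1)) y := by
  have h3 : ∀ᵐ y ∂(volume : Measure (E m)), ∀ p ∈ Idx σ 1 F.2, ∀ q ∈ Idx σ 1 F.2, p ≠ q →
      ¬ (y ∈ Bn M α 1 '' tile σ α x0 (PF σ M p.1 p.2 F.1) ∧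
        y ∈ Bn M α 1 '' tile σ α x0 (PF σ M q.1 q.2 F.1)) := by
    rw [Finset.eventually_all]
    intro p hp
    rw [Finset.eventually_all]
    intro q hq
    by_cases hpq : p = q
    · exact Filter.Eventually.of_forall fun y h => absurd hpq h
    · have h4 := h2 _ _ F ((par_iff D.pis _ _).2 ⟨p, hp, rfl⟩) ((par_iff D.pis _ _).2 ⟨q, hq, rfl⟩)
        (fun he => hpq (PF_inj D.pis hp hq he))
      have h5 := hnull _ h4
      rw [Set.image_inter hinj] at h5
      have h6 := measure_eq_zero_iff_ae_notMem.1 h5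
      filter_upwards [h6] with y hy _ hh
      exact hy hh
  filter_upwards [h1 F, h3] with y hy1 hy3
  by_cases hy : y ∈ tile σ α x0 F
  · obtain ⟨G, hG, hyG⟩ := hy1.1 hy
    obtain ⟨p, hp, rfl⟩ := (par_iff D.pis _ _).1 hG
    rw [ind_of_mem hy, Finset.sum_eq_single p, ind_of_mem hyG]
    · intro q hq hqp
      exact ind_of_notMem fun h => hy3 q hq p hp hqp ⟨h, hyG⟩
    · intro h
      exact absurd hp h
  · rw [ind_of_notMem hy]
    symm
    apply Finset.sum_eq_zero
    intro p hp
    apply ind_of_notMem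
    intro h
    exact hy (hy1.2 ⟨_, (par_iff D.pis _ _).2 ⟨p, hp, rfl⟩, h⟩)

/-- Reordering the sum over all positions. -/
lemma sum_Idx (f : Fin (m + 1) → ℕ → ℝ) :
    ∑ i, ∑ p ∈ Idx σ 1 i, f p.1 p.2 = ∑ b, ∑ s ∈ Finset.range (it σ 1 [b]).length, f b s := by
  unfold Idx
  simp_rw [Finset.sum_sigma]
  rw [Finset.sum_comm]
  refine Finset.sum_congr rfl fun b _ => ?_
  simp only [Finset.sum_filter]
  rw [Finset.sum_comm]
  refine Finset.sum_congr rfl fun s hs => ?_
  rw [Finset.mem_range] at hs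
  rw [Finset.sum_eq_single ((it σ 1 [b])[s])]
  · rw [if_pos (List.getElem?_eq_getElem hs)]
  · intro i _ hi
    rw [if_neg]
    rw [List.getElem?_eq_getElem hs]
    intro h
    exact hi (Option.some_injective _ h).symm
  · intro h
    exact absurd (Finset.mem_univ _) h

lemma it_one (b : Fin (m + 1)) : it σ 1 [b] = σ b := by
  rw [it_succ, it_zero]
  simp

lemma cnt_image (D : Dat σ M r α l a0 x0) (b : Fin (m + 1)) :
    cnt (it σ 1 [b]) = M.mulVec (ee b) := by
  funext i
  unfold cnt ee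
  rw [it_one, Matrix.mulVec_single_one]
  exact (D.inc i b).symm

lemma PF_zero (b : Fin (m + 1)) (w : Lat m) : PF σ M b 0 w = (M⁻¹.mulVec w, b) := by
  unfold PF
  rw [List.take_zero, cnt_nil, sub_zero]

lemma PF_last (D : Dat σ M r α l a0 x0) (b : Fin (m + 1)) (w : Lat m) :
    PF σ M b (it σ 1 [b]).length w = (M⁻¹.mulVec w - ee b, b) := by
  unfold PF
  rw [List.take_length, cnt_image D, Matrix.mulVec_sub, inv_mulVec D.pis]

lemma PF_succ {i b : Fin (m + 1)} {s : ℕ} (h : (it σ 1 [b])[s]? = some i) (w : Lat m) :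
    PF σ M b s (w - ee i) = PF σ M b (s + 1) w := by
  unfold PF
  rw [cnt_take_succ h]
  congr 2
  abel

/-- The flip defect. -/
noncomputable def DD (σ : Fin (m + 1) → List (Fin (m + 1))) (α : Fin (m + 1) → ℝ)
    (x0 : ℤ → Fin (m + 1)) (w : Lat m) (y : E m) : ℝ :=
  ∑ i, ind (tile σ α x0 (w - ee i, i)) y - ∑ j, ind (tile σ α x0 (w, j)) y

lemma ind_image {B : E m → E m} (hB : Function.Injective B) (S : Set (E m)) (z : E m) :
    ind (B '' S) (B z) = ind S z := by
  by_cases h : z ∈ S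
  · rw [ind_of_mem h, ind_of_mem (Set.mem_image_of_mem B h)]
  · rw [ind_of_notMem h, ind_of_notMem]
    rintro ⟨z', hz', he⟩
    exact h (hB he ▸ hz')

lemma DD_rec (D : Dat σ M r α l a0 x0) (hinj : Function.Bijective (Bn M α 1))
    (hnull : ∀ S : Set (E m), volume S = 0 → volume (Bn M α 1 '' S) = 0)
    (h1 : ∀ F : Face m, ∀ᵐ y ∂(volume : Measure (E m)),
      (y ∈ tile σ α x0 F ↔ ∃ G, Par σ M 1 G F ∧ y ∈ Bn M α 1 '' tile σ α x0 G))
    (h2 : ∀ G G' F : Face m, Par σ M 1 G F → Par σ M 1 G' F → G ≠ G' →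
      (volume : Measure (E m)) (tile σ α x0 G ∩ tile σ α x0 G') = 0) :
    ∀ᵐ y ∂(volume : Measure (E m)), (DD σ α x0 0 y ≠ 0 ↔
      y ∈ Bn M α 1 '' {z | DD σ α x0 0 z ≠ 0}) := by
  have h3 : ∀ᵐ y ∂(volume : Measure (E m)), ∀ F : Face m, ind (tile σ α x0 F) y =
      ∑ p ∈ Idx σ 1 F.2, ind (Bn M α 1 '' tile σ α x0 (PF σ M p.1 p.2 F.1)) y :=
    ae_all_iff.2 (ind_tile D hinj.1 hnull h1 h2)
  filter_upwards [h3] with y hy
  obtain ⟨z, rfl⟩ := hinj.2 y
  have key : DD σ α x0 0 (Bn M α 1 z) = DD σ α x0 0 z := by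
    unfold DD
    simp_rw [hy]
    have e1 : ∀ i : Fin (m + 1), ∑ p ∈ Idx σ 1 i,
        ind (Bn M α 1 '' tile σ α x0 (PF σ M p.1 p.2 (0 - ee i))) (Bn M α 1 z) =
        ∑ p ∈ Idx σ 1 i, ind (tile σ α x0 (PF σ M p.1 (p.2 + 1) 0)) z := by
      intro i
      refine Finset.sum_congr rfl fun p hp => ?_
      unfold Idx at hp
      rw [Finset.mem_sigma, Finset.mem_filter] at hp
      rw [ind_image hinj.1, PF_succ hp.2.2]
    have e2 : ∀ i : Fin (m + 1), ∑ p ∈ Idx σ 1 i,
        ind (Bn M α 1 '' tile σ α x0 (PF σ M p.1 p.2 0)) (Bn M α 1 z) =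
        ∑ p ∈ Idx σ 1 i, ind (tile σ α x0 (PF σ M p.1 p.2 0)) z := by
      intro i
      refine Finset.sum_congr rfl fun p hp => ?_
      rw [ind_image hinj.1]
    simp_rw [e1, e2]
    rw [sum_Idx (σ := σ) (fun b s => ind (tile σ α x0 (PF σ M b (s + 1) 0)) z),
      sum_Idx (σ := σ) (fun b s => ind (tile σ α x0 (PF σ M b s 0)) z),
      ← Finset.sum_sub_distrib, ← Finset.sum_sub_distrib]
    refine Finset.sum_congr rfl fun b _ => ?_
    rw [← Finset.sum_sub_distrib,
      Finset.sum_range_sub (fun s => ind (tile σ α x0 (PF σ M b s 0)) z), PF_last D, PF_zero,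
      Matrix.mulVec_zero]
  rw [key]
  constructor
  · intro h
    exact ⟨z, h, rfl⟩
  · rintro ⟨z', hz', he⟩
    rw [← hinj.1 he]
    exact hz'

lemma measurable_DD (hmeas : ∀ F : Face m, MeasurableSet (tile σ α x0 F)) (w : Lat m) :
    Measurable (DD σ α x0 w) := by
  unfold DD
  apply Measurable.sub
  · exact Finset.measurable_sum _ fun i _ => measurable_ind (hmeas _)
  · exact Finset.measurable_sum _ fun i _ => measurable_ind (hmeas _)

lemma act_sub (x y : R m) (g : E m → ℝ) (z : E m) :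
    act α (x - y) g z = act α x g z - act α y g z := by
  unfold act
  rw [AddMonoidAlgebra.coeff_sub]
  apply Finsupp.sum_sub_index
  intro v a b
  push_cast
  ring

lemma act_single (v : Lat m) (c : ℚ) (g : E m → ℝ) (z : E m) :
    act α (AddMonoidAlgebra.single v c) g z = (c : ℝ) * g (z - pr α v) := by
  unfold act
  rw [AddMonoidAlgebra.coeff_single, Finsupp.sum_single_index]
  simp

/-- The flip relation, module `FlipStmt`. -/
theorem flip (hB : LatBStmt) (hT : TileStmt) (hG : GifsStmt) : FlipStmt := by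
  intro m σ M r α l a0 x0 D
  obtain ⟨_, _, _, hbij, _, hvolB⟩ := hB m σ M r α l a0 x0 D
  obtain ⟨hcomp, htr, _, _, _⟩ := hT m σ M r α l a0 x0 D
  obtain ⟨hg1, hg2⟩ := hG m σ M r α l a0 x0 D
  have hmeas : ∀ F : Face m, MeasurableSet (tile σ α x0 F) :=
    fun F => (hcomp F).isClosed.measurableSet
  have hnull : ∀ S : Set (E m), volume S = 0 → volume (Bn M α 1 '' S) = 0 := by
    intro S hS
    rw [hvolB, hS, mul_zero]
  have hrec := DD_rec D (hbij 1) hnull (hg1 1) (hg2 1)
  -- the base case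
  have h0 : ∀ᵐ y ∂(volume : Measure (E m)), DD σ α x0 0 y = 0 := by
    set S : Set (E m) := {z | DD σ α x0 0 z ≠ 0} with hS
    have hfin : volume S < ⊤ := by
      have hsub : S ⊆ (⋃ i, tile σ α x0 (0 - ee i, i)) ∪ (⋃ j, tile σ α x0 (0, j)) := by
        intro z hz
        by_contra hn
        apply hz
        rw [Set.mem_union, Set.mem_iUnion, Set.mem_iUnion, not_or] at hn
        push Not at hn
        unfold DD
        rw [Finset.sum_eq_zero fun i _ => ind_of_notMem (hn.1 i),
          Finset.sum_eq_zero fun i _ => ind_of_notMem (hn.2 i), sub_zero]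
      refine lt_of_le_of_lt (measure_mono hsub) ?_
      exact ((isCompact_iUnion fun i => hcomp _).union
        (isCompact_iUnion fun i => hcomp _)).measure_lt_top
    have heq : volume S = volume (Bn M α 1 '' S) := by
      apply measure_congr
      filter_upwards [hrec] with y hy
      exact propext hy
    rw [hvolB] at heq
    have hr : 1 < r := D.pf.one_lt
    have hlt : ENNReal.ofReal ((r ^ 1)⁻¹) < 1 := by
      rw [← ENNReal.ofReal_one, ENNReal.ofReal_lt_ofReal_iff one_pos, pow_one]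
      exact inv_lt_one_of_one_lt₀ hr
    have hz : volume S = 0 := by
      by_contra hne
      have : ENNReal.ofReal ((r ^ 1)⁻¹) * volume S < 1 * volume S :=
        ENNReal.mul_lt_mul_left hne hfin.ne hlt
      rw [one_mul] at this
      exact absurd heq this.ne'
    filter_upwards [measure_eq_zero_iff_ae_notMem.1 hz] with y hy
    by_contra h
    exact hy h
  have htr' : ∀ (w : Lat m) (F : Face m) (y : E m),
      ind (tile σ α x0 (tr w F)) y = ind (tile σ α x0 F) (y - pr α w) := by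
    intro w F y
    rw [htr w F]
    have h1 : y = (fun z => pr α w + z) (y - pr α w) := by
      simp
    conv_lhs => rw [h1]
    exact ind_image (add_right_injective _) _ _
  refine ⟨?_, ?_⟩
  · intro w
    have h1 : ∀ᵐ y ∂(volume : Measure (E m)), DD σ α x0 0 (y - pr α w) = 0 := by
      have hq : Measure.QuasiMeasurePreserving (fun y : E m => y - pr α w) volume volume := by
        have := (measurePreserving_add_right (volume : Measure (E m)) (-pr α w))
        simpa [sub_eq_add_neg] using this.quasiMeasurePreserving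
      exact hq.ae h0
    filter_upwards [h1] with y hy
    unfold DD at hy
    rw [sub_eq_zero] at hy
    have e1 : ∀ i, ind (tile σ α x0 (w - ee i, i)) y =
        ind (tile σ α x0 (0 - ee i, i)) (y - pr α w) := by
      intro i
      rw [← htr']
      unfold tr
      congr 3
      simp only
      abel
    have e2 : ∀ j, ind (tile σ α x0 (w, j)) y =
        ind (tile σ α x0 (0, j)) (y - pr α w) := by
      intro j
      rw [← htr']
      unfold tr
      simp
    simp_rw [e1, e2]
    exact hy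
  · unfold PSC.Rel
    filter_upwards [h0] with y hy
    unfold DD at hy
    rw [← Finset.sum_sub_distrib] at hy
    rw [← hy]
    refine Finset.sum_congr rfl fun a _ => ?_
    have h1 : (1 : R m) = AddMonoidAlgebra.single 0 1 := rfl
    unfold uv mon
    rw [act_sub, h1, act_single, act_single, ← htr', ← htr']
    unfold tr
    simp

end Pool.Agent.Helper54_PSC
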