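import Mathlib

set_option autoImplicit false

/-!
A locally integrable function invariant under a dense set of translations is a.e. constant.
-/

namespace Pool.Agent.Helper54_PSC

open MeasureTheory Filter Topology

/-- Averages over translated balls. -/
lemma average_translate {m : ℕ} {f : (Fin m → ℝ) → ℝ} {g : Fin m → ℝ}
    (hinv : ∀ᵐ x, f (x + g) = f x) (x : Fin m → ℝ) (δ : ℝ) :
    (⨍ y in Metric.closedBall (x + g) δ, f y) = ⨍ y in Metric.closedBall x δ, f y := by
  have hmp : MeasurePreserving (fun y : Fin m → ℝ => y + g) volume volume :=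
    measurePreserving_add_right volume g
  have hemb : MeasurableEmbedding (fun y : Fin m → ℝ => y + g) :=
    (MeasurableEquiv.addRight g).measurableEmbedding
  have hpre : (fun y : Fin m → ℝ => y + g) ⁻¹' Metric.closedBall (x + g) δ =
      Metric.closedBall x δ := by
    ext y
    simp
  rw [setAverage_eq, setAverage_eq]
  have h1 : ∫ y in Metric.closedBall (x + g) δ, f y = ∫ y in Metric.closedBall x δ, f (y + g) := by
    rw [← hpre]
    exact (hmp.setIntegral_preimage_emb hemb f _).symm
  have h2 : ∫ y in Metric.closedBall x δ, f (y + g) = ∫ y in Metric.closedBall x δ, f y :=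
    integral_congr_ae (ae_restrict_of_ae hinv)
  have h3 : (volume : Measure (Fin m → ℝ)).real (Metric.closedBall (x + g) δ) =
      (volume : Measure (Fin m → ℝ)).real (Metric.closedBall x δ) := by
    unfold Measure.real
    rw [← hpre, hmp.measure_preimage_emb hemb]
  rw [h1, h2, h3]

theorem ae_const_of_dense {m : ℕ} {f : (Fin m → ℝ) → ℝ} (hf : LocallyIntegrable f volume)
    {G : Set (Fin m → ℝ)} (hG : Dense G) (hinv : ∀ g ∈ G, ∀ᵐ x, f (x + g) = f x) :
    ∃ c : ℝ, ∀ᵐ x, f x = c := by
  have hmain := IsUnifLocDoublingMeasure.ae_tendsto_average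
    (μ := (volume : Measure (Fin m → ℝ))) hf 1
  obtain ⟨x₀, hx₀⟩ := hmain.exists
  refine ⟨f x₀, ?_⟩
  filter_upwards [hmain] with x hx
  set δ : ℕ → ℝ := fun n => 1 / ((n : ℝ) + 1) with hδ
  have hδpos : ∀ n, 0 < δ n := fun n => by positivity
  have hδlim : Tendsto δ atTop (𝓝[>] 0) := by
    rw [tendsto_nhdsWithin_iff]
    exact ⟨tendsto_one_div_add_atTop_nhds_zero_nat, Eventually.of_forall fun n => hδpos n⟩
  have hex : ∀ n, ∃ g ∈ G, dist (x - x₀) g ≤ δ n := by
    intro n
    obtain ⟨g, hg, hgd⟩ := Metric.dense_iff.1 hG (x - x₀) (δ n) (hδpos n)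
    exact ⟨g, hgd, by rw [dist_comm]; exact (Metric.mem_ball.1 hg).le⟩
  choose g hgG hgd using hex
  have h1 := hx₀ (fun _ => x₀) δ hδlim (Eventually.of_forall fun n => by
    rw [one_mul]
    exact Metric.mem_closedBall_self (hδpos n).le)
  have h2 := hx (fun n => x₀ + g n) δ hδlim (Eventually.of_forall fun n => by
    rw [one_mul, Metric.mem_closedBall]
    have := hgd n
    rw [dist_eq_norm] at this ⊢
    have e : x - (x₀ + g n) = x - x₀ - g n := by abel
    rw [e]
    exact this)
  have h3 : ∀ n, (⨍ y in Metric.closedBall (x₀ + g n) (δ n), f y) =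
      ⨍ y in Metric.closedBall x₀ (δ n), f y := fun n =>
    average_translate (hinv _ (hgG n)) x₀ (δ n)
  simp_rw [h3] at h2
  exact tendsto_nhds_unique h2 h1

end Pool.Agent.Helper54_PSC
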