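import Pool.Agent.Helper95_PSC.Stmts
import Pool.Agent.Helper54_PSC.AeConst

set_option autoImplicit false

/-!
Constant multiplicity of the tiles of the alive faces.
-/

namespace Pool.Agent.Helper54_PSC

open Pool.Agent.PSC Pool.Agent.Helper40_Pisot MeasureTheory

variable {m : ℕ}

lemma ht_add (l : Fin (m + 1) → ℝ) (v w : Lat m) : ht l (v + w) = ht l v + ht l w := by
  unfold ht
  rw [← Finset.sum_add_distrib]
  refine Finset.sum_congr rfl fun i _ => ?_
  rw [Pi.add_apply]
  push_cast
  ring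

lemma ht_ee (l : Fin (m + 1) → ℝ) (a : Fin (m + 1)) : ht l (ee a) = l a := by
  unfold ht ee
  rw [Finset.sum_eq_single a]
  · simp
  · intro b _ hb
    rw [Pi.single_eq_of_ne hb]
    simp
  · intro h
    exact absurd (Finset.mem_univ a) h

lemma ht_sub_ee (l : Fin (m + 1) → ℝ) (v : Lat m) (a : Fin (m + 1)) :
    ht l (v - ee a) = ht l v - l a := by
  have h := ht_add l (v - ee a) (ee a)
  rw [sub_add_cancel, ht_ee] at h
  linarith

/-- Abstract families of tiles. -/
structure TD (α l : Fin (m + 1) → ℝ) (T : Face m → Set (E m)) : Prop where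
  lpos : ∀ a, 0 < l a
  meas : ∀ F, MeasurableSet (T F)
  fin : ∀ ρ : ℝ, ∃ s : Finset (Face m), ∀ F, ∀ y ∈ T F, ‖y‖ ≤ ρ → |ht l F.1| ≤ ρ → F ∈ s
  trans : ∀ (v : Lat m) (F : Face m) (y : E m), y + pr α v ∈ T (tr v F) ↔ y ∈ T F
  flip : ∀ w : Lat m, ∀ᵐ y ∂(volume : Measure (E m)),
    ∑ i, ind (T (w - ee i, i)) y = ∑ j, ind (T (w, j)) y

/-- Step function. -/
noncomputable def uu (t x : ℝ) : ℝ := if x ≤ t then 1 else 0

/-- The multiplicity as a real number. -/
noncomputable def AA (l : Fin (m + 1) → ℝ) (T : Face m → Set (E m)) (t : ℝ) (y : E m) : ℝ :=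
  ∑' F : Face m, (uu t (ht l F.1) - uu t (ht l F.1 + l F.2)) * ind (T F) y

lemma ind_of_mem {S : Set (E m)} {y : E m} (h : y ∈ S) : ind S y = 1 := by
  unfold ind
  rw [Set.indicator_of_mem h]

lemma ind_of_notMem {S : Set (E m)} {y : E m} (h : y ∉ S) : ind S y = 0 := by
  unfold ind
  rw [Set.indicator_of_notMem h]

lemma measurable_ind {S : Set (E m)} (h : MeasurableSet S) : Measurable (ind S) :=
  measurable_const.indicator h

lemma uu_alive {l : Fin (m + 1) → ℝ} (t : ℝ) {F : Face m} (h : Alive l t F) :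
    uu t (ht l F.1) - uu t (ht l F.1 + l F.2) = 1 := by
  unfold uu
  rw [if_pos h.1, if_neg (not_le.2 h.2), sub_zero]

lemma uu_not_alive {l : Fin (m + 1) → ℝ} (hl : ∀ a, 0 < l a) (t : ℝ) {F : Face m}
    (h : ¬ Alive l t F) : uu t (ht l F.1) - uu t (ht l F.1 + l F.2) = 0 := by
  unfold uu
  by_cases h1 : ht l F.1 ≤ t
  · have h2 : ht l F.1 + l F.2 ≤ t := by
      by_contra h3
      exact h ⟨h1, not_le.1 h3⟩
    rw [if_pos h1, if_pos h2, sub_self]
  · have h2 : ¬ ht l F.1 + l F.2 ≤ t := by
      intro h3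
      apply h1
      have := hl F.2
      linarith
    rw [if_neg h1, if_neg h2, sub_self]

variable {α l : Fin (m + 1) → ℝ} {T : Face m → Set (E m)}

lemma l_le_sum (hl : ∀ a, 0 < l a) (a : Fin (m + 1)) : l a ≤ ∑ i, l i :=
  Finset.single_le_sum (fun i _ => (hl i).le) (Finset.mem_univ a)

/-- The finite box of faces that matter for the times at most `b` and the points of norm at most
`ρ`. -/
lemma TD.box (h : TD α l T) (ρ b : ℝ) : ∃ s : Finset (Face m), ∀ F, ∀ y ∈ T F, ‖y‖ ≤ ρ →
    (|ht l F.1| ≤ b ∨ |ht l F.1 + l F.2| ≤ b) → F ∈ s := by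
  obtain ⟨s, hs⟩ := h.fin (max ρ (b + ∑ i, l i))
  refine ⟨s, fun F y hy hyρ hb => hs F y hy (le_trans hyρ (le_max_left _ _))
    (le_trans ?_ (le_max_right _ _))⟩
  have h0 : 0 ≤ ∑ i, l i := Finset.sum_nonneg fun i _ => (h.lpos i).le
  have h1 := l_le_sum h.lpos F.2
  have h2 := h.lpos F.2
  rcases hb with hb | hb
  · linarith
  · rw [abs_le] at hb ⊢
    constructor <;> linarith [hb.1, hb.2]

lemma TD.finite_alive (h : TD α l T) (t : ℝ) (y : E m) :
    {F : Face m | Alive l t F ∧ y ∈ T F}.Finite := by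
  obtain ⟨s, hs⟩ := h.box ‖y‖ (|t| + ∑ i, l i)
  refine s.finite_toSet.subset ?_
  rintro F ⟨hF, hy⟩
  refine hs F y hy le_rfl (Or.inl ?_)
  have h1 := l_le_sum h.lpos F.2
  have h3 := hF.1
  have h4 := hF.2
  have h5 := abs_le.1 (le_refl |t|)
  have h0 : 0 ≤ ∑ i, l i := Finset.sum_nonneg fun i _ => (h.lpos i).le
  rw [abs_le]
  constructor <;> linarith [h5.1, h5.2]

lemma TD.card_eq (h : TD α l T) (t : ℝ) (y : E m) :
    ((Set.ncard {F : Face m | Alive l t F ∧ y ∈ T F} : ℕ) : ℝ) = AA l T t y := by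
  classical
  have hfin := h.finite_alive t y
  rw [Set.ncard_eq_toFinset_card _ hfin]
  unfold AA
  rw [tsum_eq_sum (s := hfin.toFinset)]
  · rw [Finset.card_eq_sum_ones]
    push_cast
    refine Finset.sum_congr rfl fun F hF => ?_
    rw [Set.Finite.mem_toFinset] at hF
    rw [uu_alive t hF.1, ind_of_mem hF.2, mul_one]
  · intro F hF
    rw [Set.Finite.mem_toFinset] at hF
    by_cases h1 : Alive l t F
    · have h2 : y ∉ T F := fun h2 => hF ⟨h1, h2⟩
      rw [ind_of_notMem h2, mul_zero]
    · rw [uu_not_alive h.lpos t h1, zero_mul]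

/-- Finite supports. -/
lemma TD.summable (h : TD α l T) (c : ℝ → ℝ) {b : ℝ} (hc : ∀ x, c x ≠ 0 → |x| ≤ b) (y : E m) :
    (Summable fun F : Face m => c (ht l F.1) * ind (T F) y) ∧
    (Summable fun F : Face m => c (ht l F.1 + l F.2) * ind (T F) y) := by
  obtain ⟨s, hs⟩ := h.box ‖y‖ b
  constructor
  · refine summable_of_hasFiniteSupport (s.finite_toSet.subset ?_)
    intro F hF
    rw [Function.mem_support] at hF
    have h1 := left_ne_zero_of_mul hF
    have h2 : y ∈ T F := by
      by_contra h3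
      exact right_ne_zero_of_mul hF (ind_of_notMem h3)
    exact hs F y h2 le_rfl (Or.inl (hc _ h1))
  · refine summable_of_hasFiniteSupport (s.finite_toSet.subset ?_)
    intro F hF
    rw [Function.mem_support] at hF
    have h1 := left_ne_zero_of_mul hF
    have h2 : y ∈ T F := by
      by_contra h3
      exact right_ne_zero_of_mul hF (ind_of_notMem h3)
    exact hs F y h2 le_rfl (Or.inr (hc _ h1))

/-- The equivalence which moves the start of a face to its end. -/
def shE (m : ℕ) : Face m ≃ Face m where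
  toFun F := (F.1 - ee F.2, F.2)
  invFun F := (F.1 + ee F.2, F.2)
  left_inv F := by simp
  right_inv F := by simp

lemma TD.flip_all (h : TD α l T) : ∀ᵐ y ∂(volume : Measure (E m)), ∀ w : Lat m,
    ∑ i, ind (T (w - ee i, i)) y = ∑ j, ind (T (w, j)) y :=
  ae_all_iff.2 h.flip

lemma TD.indep (h : TD α l T) : ∀ᵐ y ∂(volume : Measure (E m)), ∀ t t' : ℝ,
    AA l T t y = AA l T t' y := by
  filter_upwards [h.flip_all] with y hy t t'
  have key : ∀ t t' : ℝ, ∀ c : ℝ → ℝ, (∀ x, c x = uu t' x - uu t x) →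
      ∀ b, b = |t| + |t'| → ∀ x, c x ≠ 0 → |x| ≤ b := by
    intro t t' c hc b hb x hx
    rw [hc] at hx
    unfold uu at hx
    rw [hb]
    have h1 := abs_le.1 (le_refl |t|)
    have h2 := abs_le.1 (le_refl |t'|)
    have h3 := abs_nonneg t
    have h4 := abs_nonneg t'
    rw [abs_le]
    by_cases e1 : x ≤ t'
    · by_cases e2 : x ≤ t
      · rw [if_pos e1, if_pos e2] at hx
        simp at hx
      · rw [not_le] at e2
        constructor <;> linarith [h1.1, h1.2, h2.1, h2.2]
    · by_cases e2 : x ≤ t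
      · rw [not_le] at e1
        constructor <;> linarith [h1.1, h1.2, h2.1, h2.2]
      · rw [if_neg e1, if_neg e2] at hx
        simp at hx
  set c : ℝ → ℝ := fun x => uu t' x - uu t x with hc
  have hcb := key t t' c (fun _ => rfl) _ rfl
  obtain ⟨s1, s2⟩ := h.summable c hcb y
  -- the two partial sums
  have hA : ∀ τ, Summable fun F : Face m =>
      (uu τ (ht l F.1) - uu τ (ht l F.1 + l F.2)) * ind (T F) y := by
    intro τ
    refine summable_of_hasFiniteSupport ((h.finite_alive τ y).subset ?_)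
    intro F hF
    rw [Function.mem_support] at hF
    constructor
    · by_contra h1
      exact left_ne_zero_of_mul hF (uu_not_alive h.lpos τ h1)
    · by_contra h3
      exact right_ne_zero_of_mul hF (ind_of_notMem h3)
  have e1 : AA l T t' y - AA l T t y = ∑' F : Face m, (c (ht l F.1) * ind (T F) y -
      c (ht l F.1 + l F.2) * ind (T F) y) := by
    unfold AA
    rw [← (hA t').tsum_sub (hA t)]
    refine tsum_congr fun F => ?_
    simp only [hc]
    ring
  have e2 : ∑' F : Face m, c (ht l F.1 + l F.2) * ind (T F) y =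
      ∑' F : Face m, c (ht l F.1) * ind (T (F.1 - ee F.2, F.2)) y := by
    rw [← (shE m).tsum_eq]
    refine tsum_congr fun F => ?_
    simp only [shE, Equiv.coe_fn_mk]
    rw [ht_sub_ee, sub_add_cancel]
  have s3 : Summable fun F : Face m => c (ht l F.1) * ind (T (F.1 - ee F.2, F.2)) y := by
    have := (shE m).summable_iff.2 s2
    refine this.congr fun F => ?_
    simp only [Function.comp, shE, Equiv.coe_fn_mk]
    rw [ht_sub_ee, sub_add_cancel]
  have e3 : ∑' F : Face m, c (ht l F.1) * ind (T (F.1 - ee F.2, F.2)) y =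
      ∑' F : Face m, c (ht l F.1) * ind (T F) y := by
    rw [s3.tsum_prod, s1.tsum_prod]
    refine tsum_congr fun w => ?_
    rw [tsum_fintype, tsum_fintype]
    simp only
    rw [← Finset.mul_sum, ← Finset.mul_sum, hy w]
  have e4 : AA l T t' y - AA l T t y = 0 := by
    rw [e1, s1.tsum_sub s2, e2, e3, sub_self]
  linarith

/-- Translations. -/
def trE (v : Lat m) : Face m ≃ Face m where
  toFun F := tr v F
  invFun F := tr (-v) F
  left_inv F := by simp [tr]
  right_inv F := by simp [tr]

lemma TD.translate (h : TD α l T) (t : ℝ) (v : Lat m) (y : E m) :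
    AA l T t (y + pr α v) = AA l T (t - ht l v) y := by
  unfold AA
  rw [← (trE v).tsum_eq]
  refine tsum_congr fun F => ?_
  have h1 : ind (T (tr v F)) (y + pr α v) = ind (T F) y := by
    by_cases hy : y ∈ T F
    · rw [ind_of_mem hy, ind_of_mem ((h.trans v F y).2 hy)]
    · rw [ind_of_notMem hy, ind_of_notMem fun h2 => hy ((h.trans v F y).1 h2)]
  have h2 : ∀ x, uu t (ht l v + x) = uu (t - ht l v) x := by
    intro x
    unfold uu
    by_cases e : x ≤ t - ht l v
    · rw [if_pos e, if_pos (by linarith)]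
    · rw [if_neg e, if_neg (by intro h3; apply e; linarith)]
  have h3 : (trE v F : Face m) = tr v F := rfl
  rw [h3, h1]
  have h4 : ht l (tr v F).1 = ht l v + ht l F.1 := ht_add l v F.1
  have h5 : (tr v F).2 = F.2 := rfl
  rw [h4, h5, h2, add_assoc, h2]

lemma TD.locInt (h : TD α l T) (t : ℝ) : LocallyIntegrable (AA l T t) volume := by
  rw [locallyIntegrable_iff]
  intro k hk
  obtain ⟨ρ, hρ⟩ := hk.isBounded.exists_norm_le
  obtain ⟨s, hs⟩ := h.box ρ (|t| + ∑ i, l i)
  have heq : ∀ y ∈ k, AA l T t y =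
      ∑ F ∈ s, (uu t (ht l F.1) - uu t (ht l F.1 + l F.2)) * ind (T F) y := by
    intro y hy
    unfold AA
    rw [tsum_eq_sum]
    intro F hF
    by_cases h1 : Alive l t F
    · have h2 : y ∉ T F := by
        intro h2
        apply hF
        refine hs F y h2 (hρ y hy) (Or.inl ?_)
        have g1 := l_le_sum h.lpos F.2
        have g3 := h1.1
        have g4 := h1.2
        have g5 := abs_le.1 (le_refl |t|)
        have g0 : 0 ≤ ∑ i, l i := Finset.sum_nonneg fun i _ => (h.lpos i).le
        rw [abs_le]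
        constructor <;> linarith [g5.1, g5.2]
      rw [ind_of_notMem h2, mul_zero]
    · rw [uu_not_alive h.lpos t h1, zero_mul]
  rw [integrableOn_congr_fun heq hk.measurableSet]
  apply integrable_finsetSum
  intro F _
  apply Integrable.const_mul
  unfold ind
  rw [integrable_indicator_iff (h.meas F)]
  refine integrableOn_const (ne_of_lt ?_)
  rw [Measure.restrict_apply (h.meas F)]
  exact lt_of_le_of_lt (measure_mono Set.inter_subset_right) hk.measure_lt_top

theorem TD.mult (h : TD α l T) (hd : Dense (Set.range (pr α : Lat m → E m)))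
    {a : Fin (m + 1)} (ha : 0 < (volume : Measure (E m)) (T (0, a))) :
    ∃ k : ℕ, 1 ≤ k ∧ ∀ t : ℝ, ∀ᵐ y ∂(volume : Measure (E m)),
      Set.ncard {F : Face m | Alive l t F ∧ y ∈ T F} = k := by
  have hinv : ∀ g ∈ Set.range (pr α : Lat m → E m), ∀ᵐ y, AA l T 0 (y + g) = AA l T 0 y := by
    rintro _ ⟨v, rfl⟩
    filter_upwards [h.indep] with y hy
    rw [h.translate]
    exact hy _ _
  obtain ⟨c, hc⟩ := ae_const_of_dense (h.locInt 0) hd hinv
  obtain ⟨y0, hy0⟩ := hc.exists
  set k : ℕ := Set.ncard {F : Face m | Alive l 0 F ∧ y0 ∈ T F} with hk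
  have hkc : (k : ℝ) = c := by rw [← hy0, hk, h.card_eq]
  have hall : ∀ t : ℝ, ∀ᵐ y ∂(volume : Measure (E m)),
      Set.ncard {F : Face m | Alive l t F ∧ y ∈ T F} = k := by
    intro t
    filter_upwards [hc, h.indep] with y hy hy'
    have h1 : ((Set.ncard {F : Face m | Alive l t F ∧ y ∈ T F} : ℕ) : ℝ) = (k : ℝ) := by
      rw [h.card_eq, hy' t 0, hy, hkc]
    exact_mod_cast h1
  refine ⟨k, ?_, hall⟩
  by_contra hk0
  have hk0 : k = 0 := by omega
  have h1 := hall 0
  have h2 : (volume : Measure (E m)) (T (0, a)) = 0 := by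
    refine measure_mono_null ?_ (mem_ae_iff.1 h1)
    intro y hy
    rw [Set.mem_compl_iff]
    intro hy2
    have h3 : Set.ncard {F : Face m | Alive l 0 F ∧ y ∈ T F} = k := hy2
    rw [hk0, Set.ncard_eq_zero (h.finite_alive 0 y)] at h3
    have h4 : ((0, a) : Face m) ∈ {F : Face m | Alive l 0 F ∧ y ∈ T F} := by
      refine ⟨⟨?_, ?_⟩, hy⟩
      · unfold ht; simp
      · have := h.lpos a
        unfold ht
        simpa using this
    rw [h3] at h4
    exact h4
  exact ha.ne' h2

/-- Constant multiplicity, module `MultStmt`. -/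
theorem mult (hA : LatAStmt) (hT : TileStmt) (hF : FlipStmt) : MultStmt := by
  intro m σ M r α l a0 x0 D
  obtain ⟨_, ⟨K, hK0, hK⟩, hdense⟩ := hA m σ M r α l a0 x0 D
  obtain ⟨hcomp, htr, ⟨K', hK'⟩, hvol, _⟩ := hT m σ M r α l a0 x0 D
  obtain ⟨hflip, _⟩ := hF m σ M r α l a0 x0 D
  have hTD : TD α l (tile σ α x0) := by
    refine ⟨D.pf.l_pos, fun F => (hcomp F).isClosed.measurableSet, ?_, ?_, hflip⟩
    · intro ρ
      obtain ⟨N, hN⟩ := exists_nat_ge (K * (ρ + m * (ρ + K')))
      refine ⟨(Fintype.piFinset fun _ : Fin (m + 1) => Finset.Icc (-(N : ℤ)) N) ×ˢ Finset.univ, ?_⟩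
      intro F y hy hyρ hh
      rw [Finset.mem_product]
      refine ⟨?_, Finset.mem_univ _⟩
      rw [Fintype.mem_piFinset]
      intro i
      have h1 := hK F.1 i
      have h2 : ∑ j, |pr α F.1 j| ≤ m * (ρ + K') := by
        have h3 : ∀ j ∈ Finset.univ, |pr α F.1 j| ≤ ρ + K' := by
          intro j _
          have h4 := hK' F y hy j
          have h5 : |y j| ≤ ρ := by
            have := norm_le_pi_norm y j
            rw [Real.norm_eq_abs] at this
            linarith
          have h6 : pr α F.1 j = y j - (y j - pr α F.1 j) := by ring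
          rw [h6]
          refine le_trans (abs_sub _ _) ?_
          linarith
        have := Finset.sum_le_sum h3
        rw [Finset.sum_const, Finset.card_univ, Fintype.card_fin, nsmul_eq_mul] at this
        exact this
      have h7 : |(F.1 i : ℝ)| ≤ N := by
        refine le_trans h1 (le_trans ?_ hN)
        apply mul_le_mul_of_nonneg_left _ hK0.le
        linarith
      rw [Finset.mem_Icc]
      rw [abs_le] at h7
      constructor
      · have : (-(N : ℝ)) ≤ (F.1 i : ℝ) := h7.1
        exact_mod_cast this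
      · exact_mod_cast h7.2
    · intro v F y
      rw [htr v F]
      constructor
      · rintro ⟨z, hz, hzy⟩
        have : z = y := by
          simp only at hzy
          rw [add_comm] at hzy
          exact add_right_cancel hzy
        rw [← this]
        exact hz
      · intro hy
        exact ⟨y, hy, add_comm _ _⟩
  exact hTD.mult hdense (hvol (0, 0))

end Pool.Agent.Helper54_PSC
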